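import Pool.Agent.Helper83.BQ.BigPlane

/-!
# A long line in rank four: geometry and counting

`u` is a line, `z` a point off `u`, `c` a point of `u` and `y` a point off the plane of `z` and `u`.
The row of `z` and `c` is `z ⊔ c`, the plane of the triple is `z ⊔ c ⊔ y`.
-/

set_option autoImplicit false
set_option linter.unusedSectionVars false

namespace Pool.Agent.Helper4.LL

open Pool.Agent.Helper28.BPack Pool.Agent.Helper61.Motz Pool.Agent.Helper63.HM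
open Pool.Agent.Helper83.BQ

variable {L : Type} [Lattice L] [BoundedOrder L] [Finite L] [IsUpperModularLattice L]

theorem rk_zu {u z : L} (hu : rk u = 2) (hz : IsAtom z) (hzu : ¬ z ≤ u) : rk (z ⊔ u) = 3 := by
  rw [sup_comm, rk_sup_atom hz hzu, hu]

theorem ne_zc {u z c : L} (hzu : ¬ z ≤ u) (hcu : c ≤ u) : z ≠ c := fun h => hzu (h ▸ hcu)

theorem rk_zc {u z c : L} (hz : IsAtom z) (hc : IsAtom c) (hzu : ¬ z ≤ u) (hcu : c ≤ u) :
    rk (z ⊔ c) = 2 := rk_line hz hc (ne_zc hzu hcu)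

theorem ne_zy {u z y : L} (hyP : ¬ y ≤ z ⊔ u) : z ≠ y := fun h => hyP (h ▸ le_sup_left)

theorem rk_zy {u z y : L} (hz : IsAtom z) (hy : IsAtom y) (hyP : ¬ y ≤ z ⊔ u) :
    rk (z ⊔ y) = 2 := rk_line hz hy (ne_zy hyP)

theorem rk_zcy {u z c y : L} (hz : IsAtom z) (hc : IsAtom c) (hy : IsAtom y) (hzu : ¬ z ≤ u)
    (hcu : c ≤ u) (hyP : ¬ y ≤ z ⊔ u) : rk (z ⊔ c ⊔ y) = 3 := by
  rw [rk_sup_atom hy (fun h => hyP (h.trans (sup_le_sup_left hcu z))), rk_zc hz hc hzu hcu]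

/-- The plane of a triple meets `u` in `c` only. -/
theorem plane_u {u z c y c' : L} (hu : rk u = 2) (hz : IsAtom z) (hc : IsAtom c) (hy : IsAtom y)
    (hzu : ¬ z ≤ u) (hcu : c ≤ u) (hyP : ¬ y ≤ z ⊔ u) (hc' : IsAtom c') (hcu' : c' ≤ u)
    (h : c' ≤ z ⊔ c ⊔ y) : c' = c := by
  by_contra hne
  have h1 : c' ⊔ c = u := line_eq hc' hc hne hcu' hcu hu
  have h2 : z ⊔ u ≤ z ⊔ c ⊔ y := sup_le (le_sup_left.trans le_sup_left)
    (h1 ▸ sup_le h (le_sup_right.trans le_sup_left))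
  have h3 : z ⊔ u = z ⊔ c ⊔ y := eq_of_le_of_rk h2
    (by rw [rk_zu hu hz hzu, rk_zcy hz hc hy hzu hcu hyP])
  exact hyP (h3 ▸ le_sup_right)

/-- The plane of a triple meets the plane of `z` and `u` in the row. -/
theorem plane_P {u z c y x : L} (hu : rk u = 2) (hz : IsAtom z) (hc : IsAtom c) (hy : IsAtom y)
    (hzu : ¬ z ≤ u) (hcu : c ≤ u) (hyP : ¬ y ≤ z ⊔ u) (hx : IsAtom x)
    (hxP : x ≤ z ⊔ u) (h : x ≤ z ⊔ c ⊔ y) : x ≤ z ⊔ c := by
  by_contra hcon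
  have h0 : rk (z ⊔ c ⊔ x) = 3 := by rw [rk_sup_atom hx hcon, rk_zc hz hc hzu hcu]
  have h1 : z ⊔ c ⊔ x = z ⊔ u := eq_of_le_of_rk
    (sup_le (sup_le le_sup_left (hcu.trans le_sup_right)) hxP) (by rw [h0, rk_zu hu hz hzu])
  have h2 : z ⊔ c ⊔ x = z ⊔ c ⊔ y := eq_of_le_of_rk (sup_le le_sup_left h)
    (by rw [h0, rk_zcy hz hc hy hzu hcu hyP])
  exact hyP (h1 ▸ h2 ▸ le_sup_right)

/-- The line of `z` and `y` misses `u`. -/
theorem line_u {u z y c : L} (hz : IsAtom z) (hc : IsAtom c) (hy : IsAtom y) (hzu : ¬ z ≤ u)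
    (hcu : c ≤ u) (hyP : ¬ y ≤ z ⊔ u) : ¬ c ≤ z ⊔ y := by
  intro h
  have h1 : z ⊔ c = z ⊔ y := line_eq hz hc (ne_zc hzu hcu) le_sup_left h (rk_zy hz hy hyP)
  exact hyP ((h1 ▸ le_sup_right : y ≤ z ⊔ c).trans (sup_le_sup_left hcu z))

/-- The line of `z` and `y` meets the plane of `z` and `u` in `z`. -/
theorem line_P {u z y x : L} (hz : IsAtom z) (hx : IsAtom x) (hy : IsAtom y)
    (hyP : ¬ y ≤ z ⊔ u) (hxP : x ≤ z ⊔ u) (h : x ≤ z ⊔ y) : x = z := by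
  by_contra hne
  have h1 : x ⊔ z = z ⊔ y := line_eq hx hz hne h le_sup_left (rk_zy hz hy hyP)
  exact hyP ((h1 ▸ le_sup_right : y ≤ x ⊔ z).trans (sup_le hxP le_sup_left))

/-- A row meets `u` in one point. -/
theorem row_u {u z c c' : L} (hu : rk u = 2) (hz : IsAtom z) (hc : IsAtom c) (hc' : IsAtom c')
    (hzu : ¬ z ≤ u) (hcu : c ≤ u) (hcu' : c' ≤ u) (h : c' ≤ z ⊔ c) : c' = c := by
  by_contra hne
  have h1 : c' ⊔ c = u := line_eq hc' hc hne hcu' hcu hu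
  have h2 : c' ⊔ c = z ⊔ c := line_eq hc' hc hne h le_sup_right (rk_zc hz hc hzu hcu)
  exact hzu (h1 ▸ h2 ▸ le_sup_left)

/-- Two points of a row span it with `c`. -/
theorem row_eq {u z x c : L} (hz : IsAtom z) (hx : IsAtom x) (hc : IsAtom c)
    (hzu : ¬ z ≤ u) (hxu : ¬ x ≤ u) (hcu : c ≤ u) (h : x ≤ z ⊔ c) : x ⊔ c = z ⊔ c :=
  line_eq hx hc (ne_zc hxu hcu) h le_sup_right (rk_zc hz hc hzu hcu)

/-- The plane over `u` through a point. -/
theorem plane_over {u z x : L} (hu : rk u = 2) (hz : IsAtom z) (hx : IsAtom x) (hzu : ¬ z ≤ u)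
    (hxu : ¬ x ≤ u) (h : x ≤ z ⊔ u) : x ⊔ u = z ⊔ u :=
  eq_of_le_of_rk (sup_le h le_sup_right) (by rw [rk_zu hu hz hzu, rk_zu hu hx hxu])

section count

variable [DecidableEq L] [DecidableRel (α := L) (· ≤ ·)]

/-- The planes through a line missing `u`, one for each point of `u`, have together at most
`n + |C| |g|` points. -/
theorem sum_planes {A C : Finset L} {u z y : L} {s : ℕ} (hA : ∀ a ∈ A, IsAtom a)
    (hs : ∀ g, rk g = 2 → (A.filter (· ≤ g)).card ≤ s)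
    (hu : rk u = 2) (hC : ∀ c ∈ C, IsAtom c ∧ c ≤ u) (hz : IsAtom z) (hy : IsAtom y)
    (hzu : ¬ z ≤ u) (hyP : ¬ y ≤ z ⊔ u) :
    ∑ c ∈ C, (A.filter (· ≤ z ⊔ c ⊔ y)).card ≤ A.card + C.card * s := by
  have h1 : ∀ c ∈ C, (A.filter (· ≤ z ⊔ c ⊔ y)).card ≤
      (A.filter (fun x => x ≤ z ⊔ c ⊔ y ∧ ¬ x ≤ z ⊔ y)).card + s := by
    intro c _
    have h2 : A.filter (· ≤ z ⊔ c ⊔ y) ⊆
        A.filter (fun x => x ≤ z ⊔ c ⊔ y ∧ ¬ x ≤ z ⊔ y) ∪ A.filter (· ≤ z ⊔ y) := by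
      intro x hx
      rw [Finset.mem_filter] at hx
      rw [Finset.mem_union, Finset.mem_filter, Finset.mem_filter]
      by_cases h : x ≤ z ⊔ y
      · exact Or.inr ⟨hx.1, h⟩
      · exact Or.inl ⟨hx.1, hx.2, h⟩
    have h3 := (Finset.card_le_card h2).trans (Finset.card_union_le _ _)
    have h4 := hs (z ⊔ y) (rk_zy hz hy hyP)
    omega
  have hdis : (C : Set L).PairwiseDisjoint
      (fun c => A.filter (fun x => x ≤ z ⊔ c ⊔ y ∧ ¬ x ≤ z ⊔ y)) := by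
    intro c hc c' hc' hne
    rw [Function.onFun, Finset.disjoint_left]
    intro x hx hx'
    rw [Finset.mem_filter] at hx hx'
    obtain ⟨hxA, hx1, hx2⟩ := hx
    obtain ⟨-, hx3, -⟩ := hx'
    have hxa := hA x hxA
    have hc1 := hC c hc
    have hc2 := hC c' hc'
    have e1 : z ⊔ y ⊔ x = z ⊔ c ⊔ y := eq_of_le_of_rk
      (sup_le (sup_le (le_sup_left.trans le_sup_left) le_sup_right) hx1)
      (by rw [rk_sup_atom hxa hx2, rk_zy hz hy hyP, rk_zcy hz hc1.1 hy hzu hc1.2 hyP])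
    have e2 : z ⊔ y ⊔ x = z ⊔ c' ⊔ y := eq_of_le_of_rk
      (sup_le (sup_le (le_sup_left.trans le_sup_left) le_sup_right) hx3)
      (by rw [rk_sup_atom hxa hx2, rk_zy hz hy hyP, rk_zcy hz hc2.1 hy hzu hc2.2 hyP])
    have h5 : c' ≤ z ⊔ c ⊔ y := by
      rw [← e1, e2]
      exact le_sup_right.trans le_sup_left
    exact hne (plane_u hu hz hc1.1 hy hzu hc1.2 hyP hc2.1 hc2.2 h5).symm
  have h6 : ∑ c ∈ C, (A.filter (fun x => x ≤ z ⊔ c ⊔ y ∧ ¬ x ≤ z ⊔ y)).card ≤ A.card := by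
    rw [← Finset.card_biUnion hdis]
    refine Finset.card_le_card fun x hx => ?_
    obtain ⟨c, -, h⟩ := Finset.mem_biUnion.mp hx
    exact (Finset.mem_filter.mp h).1
  calc ∑ c ∈ C, (A.filter (· ≤ z ⊔ c ⊔ y)).card
      ≤ ∑ c ∈ C, ((A.filter (fun x => x ≤ z ⊔ c ⊔ y ∧ ¬ x ≤ z ⊔ y)).card + s) :=
        Finset.sum_le_sum h1
    _ = ∑ c ∈ C, (A.filter (fun x => x ≤ z ⊔ c ⊔ y ∧ ¬ x ≤ z ⊔ y)).card + C.card * s := by
        rw [Finset.sum_add_distrib, Finset.sum_const, smul_eq_mul]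
    _ ≤ A.card + C.card * s := by omega

/-- The number of pairs `(c, y)` whose plane contains a fixed point `o`. -/
theorem card_through {A C : Finset L} {u z o : L} {s : ℕ} (hA : ∀ a ∈ A, IsAtom a)
    (hs : ∀ g, rk g = 2 → (A.filter (· ≤ g)).card ≤ s)
    (hu : rk u = 2) (hC : ∀ c ∈ C, IsAtom c ∧ c ≤ u) (hz : IsAtom z) (ho : IsAtom o)
    (hzu : ¬ z ≤ u) (hzo : z ≠ o) :
    ((C ×ˢ A.filter (fun y => ¬ y ≤ z ⊔ u)).filter (fun p => o ≤ z ⊔ p.1 ⊔ p.2)).card ≤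
      A.card + C.card * s := by
  by_cases hoP : o ≤ z ⊔ u
  · -- the colour of a pair is fixed
    refine le_trans (Finset.card_le_card_of_injOn (t := A) (fun p => p.2) ?_ ?_)
      (Nat.le_add_right _ _)
    · intro p hp
      rw [Finset.mem_coe, Finset.mem_filter, Finset.mem_product, Finset.mem_filter] at hp
      exact hp.1.2.1
    · rintro ⟨c, y⟩ hp ⟨c', y'⟩ hp' h
      rw [Finset.mem_coe, Finset.mem_filter, Finset.mem_product, Finset.mem_filter] at hp hp'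
      obtain ⟨⟨hc, hyA, hyP⟩, h1⟩ := hp
      obtain ⟨⟨hc', hyA', hyP'⟩, h1'⟩ := hp'
      simp only at hc hyA hyP h1 hc' hyA' hyP' h1' h
      subst h
      have k1 := plane_P hu hz (hC c hc).1 (hA y hyA) hzu (hC c hc).2 hyP ho hoP h1
      have k2 := plane_P hu hz (hC c' hc').1 (hA y hyA) hzu (hC c' hc').2 hyP ho hoP h1'
      have e1 := line_eq hz ho hzo le_sup_left k1 (rk_zc hz (hC c hc).1 hzu (hC c hc).2)
      have e2 := line_eq hz ho hzo le_sup_left k2 (rk_zc hz (hC c' hc').1 hzu (hC c' hc').2)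
      have k3 : c' ≤ z ⊔ c := by
        rw [← e1, e2]
        exact le_sup_right
      have k4 := row_u hu hz (hC c hc).1 (hC c' hc').1 hzu (hC c hc).2 (hC c' hc').2 k3
      rw [k4]
  · refine le_trans ?_ (sum_planes hA hs hu hC hz ho hzu hoP)
    rw [← Finset.card_sigma]
    refine Finset.card_le_card_of_injOn (fun p => ⟨p.1, p.2⟩) ?_ ?_
    · rintro ⟨c, y⟩ hp
      rw [Finset.mem_coe, Finset.mem_filter, Finset.mem_product, Finset.mem_filter] at hp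
      obtain ⟨⟨hc, hyA, hyP⟩, h1⟩ := hp
      simp only at hc hyA hyP h1
      rw [Finset.mem_coe, Finset.mem_sigma, Finset.mem_filter]
      refine ⟨hc, hyA, ?_⟩
      have e : z ⊔ c ⊔ o = z ⊔ c ⊔ y := eq_of_le_of_rk (sup_le le_sup_left h1)
        (by rw [rk_zcy hz (hC c hc).1 ho hzu (hC c hc).2 hoP,
          rk_zcy hz (hC c hc).1 (hA y hyA) hzu (hC c hc).2 hyP])
      show y ≤ z ⊔ c ⊔ o
      rw [e]
      exact le_sup_right
    · rintro ⟨c, y⟩ _ ⟨c', y'⟩ _ h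
      simp only [Sigma.mk.injEq, heq_eq_eq] at h
      rw [Prod.mk.injEq]
      exact h

/-- The number of pairs `(c, y)` with a plane of more than `τ / s` points. -/
theorem card_big {A C Y : Finset L} {u z : L} {s : ℕ} (hA : ∀ a ∈ A, IsAtom a)
    (hs : ∀ g, rk g = 2 → (A.filter (· ≤ g)).card ≤ s)
    (hu : rk u = 2) (hC : ∀ c ∈ C, IsAtom c ∧ c ≤ u) (hCs : C.card = s) (hz : IsAtom z)
    (hzu : ¬ z ≤ u) (hY : ∀ y ∈ Y, y ∈ A ∧ ¬ y ≤ z ⊔ u) (hn : 0 < A.card) :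
    9 * ((C ×ˢ Y).filter (fun p => 9 * (A.card + s * s) <
      s * (A.filter (· ≤ z ⊔ p.1 ⊔ p.2)).card)).card ≤ s * Y.card := by
  set B := (C ×ˢ Y).filter (fun p => 9 * (A.card + s * s) <
      s * (A.filter (· ≤ z ⊔ p.1 ⊔ p.2)).card) with hB
  have h1 : B.card * (9 * (A.card + s * s)) ≤
      ∑ p ∈ C ×ˢ Y, s * (A.filter (· ≤ z ⊔ p.1 ⊔ p.2)).card := by
    rw [← smul_eq_mul, ← Finset.sum_const]
    refine le_trans (Finset.sum_le_sum (fun p hp => (Finset.mem_filter.mp hp).2.le)) ?_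
    exact Finset.sum_le_sum_of_subset (Finset.filter_subset _ _)
  have h2 : ∑ p ∈ C ×ˢ Y, s * (A.filter (· ≤ z ⊔ p.1 ⊔ p.2)).card ≤
      Y.card * (s * (A.card + s * s)) := by
    rw [Finset.sum_product_right, ← smul_eq_mul, ← Finset.sum_const]
    refine Finset.sum_le_sum fun y hy => ?_
    rw [← Finset.mul_sum]
    refine Nat.mul_le_mul le_rfl ?_
    have h3 := sum_planes hA hs hu hC hz (hA y (hY y hy).1) hzu (hY y hy).2
    rwa [hCs] at h3
  have h4 : 0 < A.card + s * s := by omega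
  have h5 : 9 * B.card * (A.card + s * s) ≤ s * Y.card * (A.card + s * s) := by
    calc 9 * B.card * (A.card + s * s) = B.card * (9 * (A.card + s * s)) := by ring
      _ ≤ Y.card * (s * (A.card + s * s)) := h1.trans h2
      _ = s * Y.card * (A.card + s * s) := by ring
  exact Nat.le_of_mul_le_mul_right h5 h4

/-- The number of colours of rows with many users. -/
theorem card_rows {U C : Finset L} {u z : L} {s : ℕ} (hU : ∀ x ∈ U, IsAtom x ∧ ¬ x ≤ u)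
    (hu : rk u = 2) (hC : ∀ c ∈ C, IsAtom c ∧ c ≤ u) (hz : z ∈ U)
    (hsp : 25 * (U.filter (· ≤ z ⊔ u)).card ≤ 2 * s ^ 2) (hs : 100 ≤ s) :
    3 * (C.filter (fun c => s < 4 * (U.filter (· ≤ z ⊔ c)).card)).card ≤ s := by
  set B := C.filter (fun c => s < 4 * (U.filter (· ≤ z ⊔ c)).card) with hB
  have hBC : ∀ c ∈ B, c ∈ C ∧ s < 4 * (U.filter (· ≤ z ⊔ c)).card := fun c hc =>
    Finset.mem_filter.mp hc
  have hza := hU z hz
  have hdis : (B : Set L).PairwiseDisjoint (fun c => (U.filter (· ≤ z ⊔ c)).erase z) := by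
    intro c hc c' hc' hne
    rw [Function.onFun, Finset.disjoint_left]
    intro x hx hx'
    rw [Finset.mem_erase, Finset.mem_filter] at hx hx'
    obtain ⟨hxz, hxU, hx1⟩ := hx
    obtain ⟨-, -, hx3⟩ := hx'
    have hc1 := hC c (hBC c hc).1
    have hc2 := hC c' (hBC c' hc').1
    have e1 := line_eq (hU x hxU).1 hza.1 hxz hx1 le_sup_left (rk_zc hza.1 hc1.1 hza.2 hc1.2)
    have e2 := line_eq (hU x hxU).1 hza.1 hxz hx3 le_sup_left (rk_zc hza.1 hc2.1 hza.2 hc2.2)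
    have k3 : c' ≤ z ⊔ c := by
      rw [← e1, e2]
      exact le_sup_right
    exact hne (row_u hu hza.1 hc1.1 hc2.1 hza.2 hc1.2 hc2.2 k3).symm
  have h6 : ∑ c ∈ B, ((U.filter (· ≤ z ⊔ c)).erase z).card ≤ (U.filter (· ≤ z ⊔ u)).card := by
    rw [← Finset.card_biUnion hdis]
    refine Finset.card_le_card fun x hx => ?_
    obtain ⟨c, hc, h⟩ := Finset.mem_biUnion.mp hx
    rw [Finset.mem_erase, Finset.mem_filter] at h
    rw [Finset.mem_filter]
    exact ⟨h.2.1, h.2.2.trans (sup_le_sup_left (hC c (hBC c hc).1).2 z)⟩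
  have h7 : ∀ c ∈ B, s ≤ 4 * ((U.filter (· ≤ z ⊔ c)).erase z).card + 3 := by
    intro c hc
    have h8 := (hBC c hc).2
    rw [Finset.card_erase_of_mem (Finset.mem_filter.mpr ⟨hz, le_sup_left⟩)]
    omega
  have h8 : B.card * s ≤ 4 * (U.filter (· ≤ z ⊔ u)).card + 3 * B.card := by
    have h9 : B.card * s ≤ ∑ c ∈ B, (4 * ((U.filter (· ≤ z ⊔ c)).erase z).card + 3) := by
      rw [← smul_eq_mul, ← Finset.sum_const]
      exact Finset.sum_le_sum h7
    rw [Finset.sum_add_distrib, ← Finset.mul_sum, Finset.sum_const, smul_eq_mul] at h9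
    omega
  by_contra hcon
  push Not at hcon
  have h10 : 25 * (B.card * s) ≤ 8 * s ^ 2 + 75 * B.card := by omega
  nlinarith

end count

end Pool.Agent.Helper4.LL
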