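import Pool.Agent.Helper4.LL.Shift

/-!
# A long line in rank four: the loads
-/

set_option autoImplicit false
set_option linter.unusedSectionVars false

namespace Pool.Agent.Helper4.LL

open Pool.Agent.Helper28.BPack Pool.Agent.Helper61.Motz Pool.Agent.Helper63.HM
open Pool.Agent.Helper83.BQ

variable {L : Type} [Lattice L] [BoundedOrder L] [Finite L] [IsUpperModularLattice L]
variable [DecidableEq L] [DecidableRel (α := L) (· ≤ ·)]

/-- The triples: `z` a user, `c` a point of `u`, `y` a point off the plane of `z` and `u`. -/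
def IsTri (A U C : Finset L) (u : L) (T : Finset (L × L × L)) : Prop :=
  ∀ t ∈ T, t.1 ∈ U ∧ t.2.1 ∈ C ∧ t.2.2 ∈ A ∧ ¬ t.2.2 ≤ t.1 ⊔ u

/-- The resources of a triple. -/
noncomputable def res (A : Finset L) (u : L) (t : L × L × L) : Finset L :=
  {t.1 ⊔ t.2.2, sec A u t.1 t.2.1 t.2.2, t.1 ⊔ t.2.1 ⊔ t.2.2}

theorem mem_res {A : Finset L} {u q : L} {t : L × L × L} :
    q ∈ res A u t ↔ q = t.1 ⊔ t.2.2 ∨ q = sec A u t.1 t.2.1 t.2.2 ∨
      q = t.1 ⊔ t.2.1 ⊔ t.2.2 := by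
  rw [res, Finset.mem_insert, Finset.mem_insert, Finset.mem_singleton]

/-- Facts about a triple. -/
theorem tri_facts {A U C : Finset L} {u : L} {T : Finset (L × L × L)} (hT : IsTri A U C u T)
    (hA : ∀ a ∈ A, IsAtom a) (hu : rk u = 2) (hU : ∀ z ∈ U, z ∈ A ∧ ¬ z ≤ u)
    (hC : ∀ c ∈ C, c ∈ A ∧ c ≤ u) {z c y : L} (ht : (z, c, y) ∈ T) :
    IsAtom z ∧ ¬ z ≤ u ∧ IsAtom c ∧ c ≤ u ∧ IsAtom y ∧ ¬ y ≤ z ⊔ u ∧ rk (z ⊔ y) = 2 ∧
      rk (z ⊔ c ⊔ y) = 3 ∧ rk (sec A u z c y) = 2 ∧ z ≤ sec A u z c y ∧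
      sec A u z c y ≤ z ⊔ c ⊔ y ∧ (c ≤ sec A u z c y → sec A u z c y = z ⊔ c) ∧
      sec A u z c y ≠ z ⊔ y ∧ (∀ c' ∈ C, c' ≤ sec A u z c y → c' = c) := by
  obtain ⟨h1, h2, h3, h4⟩ := hT _ ht
  simp only at h1 h2 h3 h4
  have hz := hA z (hU z h1).1
  have hzu := (hU z h1).2
  have hc := hA c (hC c h2).1
  have hcu := (hC c h2).2
  have hy := hA y h3
  refine ⟨hz, hzu, hc, hcu, hy, h4, rk_zy hz hy h4, rk_zcy hz hc hy hzu hcu h4, ?_⟩
  have hle : sec A u z c y ≤ z ⊔ c ⊔ y → ∀ c' ∈ C, c' ≤ sec A u z c y → c' = c :=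
    fun h c' hc' hle => plane_u hu hz hc hy hzu hcu h4 (hA c' (hC c' hc').1) (hC c' hc').2
      (hle.trans h)
  rcases sec_spec hA hu hz hc hcu hzu h3 h4 with ⟨d, hd, hd1, hd2, hd3, hd4⟩ | ⟨h5, -⟩
  · have hda := hA d hd
    have k1 : rk (sec A u z c y) = 2 := by rw [← hd3]; exact rk_zy hz hda hd2
    have k2 : sec A u z c y ≤ z ⊔ c ⊔ y := by
      rw [← hd3]
      exact sup_le (le_sup_left.trans le_sup_left) hd1
    refine ⟨k1, by rw [← hd3]; exact le_sup_left, k2, ?_, hd4, hle k2⟩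
    intro hcs
    rw [← hd3] at hcs
    exact absurd hcs (line_u hz hc hda hzu hcu hd2)
  · refine ⟨by rw [h5]; exact rk_zc hz hc hzu hcu, by rw [h5]; exact le_sup_left,
      by rw [h5]; exact le_sup_left, fun _ => h5, ?_, hle (by rw [h5]; exact le_sup_left)⟩
    rw [h5]
    intro hcon
    exact line_u hz hc hy hzu hcu h4 (hcon ▸ le_sup_right)

/-- The triples whose first line is a given line. -/
theorem load_first {A U C : Finset L} {u : L} {T : Finset (L × L × L)} (hT : IsTri A U C u T)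
    (hU : ∀ z ∈ U, z ∈ A ∧ ¬ z ≤ u) {s : ℕ} (hCs : C.card = s) {q : L}
    (hq : (A.filter (· ≤ q)).card ≤ s) :
    (T.filter (fun t => q = t.1 ⊔ t.2.2)).card ≤ s ^ 3 := by
  calc (T.filter (fun t => q = t.1 ⊔ t.2.2)).card
      ≤ (A.filter (· ≤ q) ×ˢ C ×ˢ A.filter (· ≤ q)).card := by
        refine Finset.card_le_card fun t ht => ?_
        obtain ⟨ht1, ht2⟩ := Finset.mem_filter.mp ht
        obtain ⟨h1, h2, h3, h4⟩ := hT t ht1
        rw [Finset.mem_product, Finset.mem_product, Finset.mem_filter, Finset.mem_filter]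
        exact ⟨⟨(hU _ h1).1, ht2 ▸ le_sup_left⟩, h2, h3, ht2 ▸ le_sup_right⟩
    _ = (A.filter (· ≤ q)).card * (s * (A.filter (· ≤ q)).card) := by
        rw [Finset.card_product, Finset.card_product, hCs]
    _ ≤ s * (s * s) := Nat.mul_le_mul hq (Nat.mul_le_mul le_rfl hq)
    _ = s ^ 3 := by ring

/-- The triples whose second line is a given line missing `u`. -/
theorem load_second {A U C : Finset L} {u : L} {T : Finset (L × L × L)} (hT : IsTri A U C u T)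
    (hA : ∀ a ∈ A, IsAtom a) (hu : rk u = 2)
    (hU : ∀ z ∈ U, z ∈ A ∧ ¬ z ≤ u) (hC : ∀ c ∈ C, c ∈ A ∧ c ≤ u) {s : ℕ} (hCs : C.card = s)
    (hs : ∀ g, rk g = 2 → (A.filter (· ≤ g)).card ≤ s) {q : L}
    (hq : (A.filter (· ≤ q)).card ≤ s) (hqC : ∀ c ∈ C, ¬ c ≤ q) :
    (T.filter (fun t => q = sec A u t.1 t.2.1 t.2.2)).card ≤ s ^ 3 := by
  have h1 : (T.filter (fun t => q = sec A u t.1 t.2.1 t.2.2)).card ≤
      s * (A.filter (· ≤ q) ×ˢ C).card := by
    refine Finset.card_le_mul_card_image_of_maps_to (f := fun t => (t.1, t.2.1)) ?_ s ?_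
    · rintro ⟨z, c, y⟩ ht
      obtain ⟨ht1, ht2⟩ := Finset.mem_filter.mp ht
      obtain ⟨h1, h2, h3, h4⟩ := hT _ ht1
      simp only at h1 h2 h3 h4 ht2
      obtain ⟨-, -, -, -, -, -, -, -, -, k2, -⟩ := tri_facts hT hA hu hU hC ht1
      rw [Finset.mem_product, Finset.mem_filter]
      exact ⟨⟨(hU _ h1).1, ht2 ▸ k2⟩, h2⟩
    · rintro ⟨z, c⟩ -
      by_cases hne : ((T.filter (fun t => q = sec A u t.1 t.2.1 t.2.2)).filter
          (fun t => (t.1, t.2.1) = (z, c))).Nonempty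
      · obtain ⟨⟨z0, c0, y0⟩, ht0⟩ := hne
        obtain ⟨ht1, ht2⟩ := Finset.mem_filter.mp ht0
        simp only [Prod.mk.injEq] at ht2
        obtain ⟨rfl, rfl⟩ := ht2
        obtain ⟨ht3, ht4⟩ := Finset.mem_filter.mp ht1
        simp only at ht4
        have hmem := hT _ ht3
        simp only at hmem
        obtain ⟨m1, m2, m3, m4⟩ := hmem
        obtain ⟨hz, hzu, hc, hcu, hy0, hyP0, r1, r2, r3, r4, r5, r6, r7, r8⟩ :=
          tri_facts hT hA hu hU hC ht3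
        have hcq : ¬ c0 ≤ sec A u z0 c0 y0 := ht4 ▸ hqC c0 m2
        have hpl : ∀ y : L, (z0, c0, y) ∈ T → q = sec A u z0 c0 y → z0 ⊔ c0 ⊔ y = q ⊔ c0 := by
          intro y hty hyq
          obtain ⟨-, -, -, -, -, -, -, w2, w3, -, w5, -⟩ := tri_facts hT hA hu hU hC hty
          refine (eq_of_le_of_rk (sup_le (hyq ▸ w5) (le_sup_right.trans le_sup_left)) ?_).symm
          rw [rk_sup_atom hc (hqC c0 m2), hyq, w3, w2]
        refine le_trans (Finset.card_le_card_of_injOn (t := A.filter (· ≤ z0 ⊔ y0))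
          (fun t => t.2.2) ?_ ?_) (hs _ r1)
        · rintro ⟨z, c, y⟩ ht
          rw [Finset.mem_coe, Finset.mem_filter, Finset.mem_filter] at ht
          obtain ⟨⟨n1, n2⟩, n3⟩ := ht
          simp only [Prod.mk.injEq] at n2 n3
          obtain ⟨rfl, rfl⟩ := n3
          obtain ⟨n4, n5, n6, n7⟩ := hT _ n1
          simp only at n4 n5 n6 n7
          rw [Finset.mem_coe, Finset.mem_filter]
          refine ⟨n6, ?_⟩
          have e := sec_inj (u := u) (c := c) m3 m4 n6 n7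
            ((hpl y0 ht3 ht4).trans (hpl y n1 n2).symm) hcq (ht4.symm.trans n2)
          show y ≤ z ⊔ y0
          rw [e]
          exact le_sup_right
        · rintro ⟨z, c, y⟩ ht ⟨z', c', y'⟩ ht' h
          rw [Finset.mem_coe, Finset.mem_filter] at ht ht'
          have n3 := ht.2
          have n3' := ht'.2
          simp only [Prod.mk.injEq] at n3 n3'
          simp only at h
          rw [n3.1, n3.2, n3'.1, n3'.2, h]
      · rw [Finset.not_nonempty_iff_eq_empty] at hne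
        rw [hne]
        simp
  refine h1.trans ?_
  rw [Finset.card_product, hCs]
  calc s * ((A.filter (· ≤ q)).card * s) ≤ s * (s * s) :=
        Nat.mul_le_mul le_rfl (Nat.mul_le_mul hq le_rfl)
    _ = s ^ 3 := by ring

/-- The load of a line missing `u`. -/
theorem load_line {A U C : Finset L} {u : L} {T : Finset (L × L × L)} (hT : IsTri A U C u T)
    (hA : ∀ a ∈ A, IsAtom a) (hu : rk u = 2)
    (hU : ∀ z ∈ U, z ∈ A ∧ ¬ z ≤ u) (hC : ∀ c ∈ C, c ∈ A ∧ c ≤ u) {s : ℕ} (hCs : C.card = s)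
    (hs : ∀ g, rk g = 2 → (A.filter (· ≤ g)).card ≤ s) {q : L} (hq : rk q = 2)
    (hqC : ∀ c ∈ C, ¬ c ≤ q) :
    (T.filter (fun t => q ∈ res A u t)).card ≤ 2 * s ^ 3 := by
  have h1 : T.filter (fun t => q ∈ res A u t) ⊆ T.filter (fun t => q = t.1 ⊔ t.2.2) ∪
      T.filter (fun t => q = sec A u t.1 t.2.1 t.2.2) := by
    rintro ⟨z, c, y⟩ ht
    obtain ⟨ht1, ht2⟩ := Finset.mem_filter.mp ht
    rw [mem_res] at ht2
    rw [Finset.mem_union, Finset.mem_filter, Finset.mem_filter]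
    rcases ht2 with h | h | h
    · exact Or.inl ⟨ht1, h⟩
    · exact Or.inr ⟨ht1, h⟩
    · obtain ⟨-, -, -, -, -, -, -, w2, -⟩ := tri_facts hT hA hu hU hC ht1
      simp only at h
      rw [← h] at w2
      omega
  have h2 := (Finset.card_le_card h1).trans (Finset.card_union_le _ _)
  have h3 := load_first hT hU hCs (hs q hq)
  have h4 := load_second hT hA hu hU hC hCs hs (hs q hq) hqC
  omega

/-- The load of a row. -/
theorem load_row {A U C : Finset L} {u : L} {T : Finset (L × L × L)} (hT : IsTri A U C u T)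
    (hA : ∀ a ∈ A, IsAtom a) (hu : rk u = 2)
    (hU : ∀ z ∈ U, z ∈ A ∧ ¬ z ≤ u) (hC : ∀ c ∈ C, c ∈ A ∧ c ≤ u) {z0 c0 : L}
    (hz0 : z0 ∈ U) (hc0 : c0 ∈ C) :
    (∀ t ∈ T, z0 ⊔ c0 ∈ res A u t → t.1 ⊔ t.2.1 = z0 ⊔ c0) ∧
    (T.filter (fun t => z0 ⊔ c0 ∈ res A u t)).card ≤
      (U.filter (· ≤ z0 ⊔ c0)).card * A.card := by
  have hz0a := hA z0 (hU z0 hz0).1
  have hc0a := hA c0 (hC c0 hc0).1
  have hr0 : rk (z0 ⊔ c0) = 2 := rk_zc hz0a hc0a (hU z0 hz0).2 (hC c0 hc0).2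
  have key : ∀ z c y, (z, c, y) ∈ T → z0 ⊔ c0 ∈ res A u (z, c, y) →
      z ⊔ c = z0 ⊔ c0 ∧ c = c0 := by
    intro z c y ht h
    obtain ⟨hz, hzu, hc, hcu, hy, hyP, r1, r2, r3, r4, r5, r6, r7, r8⟩ :=
      tri_facts hT hA hu hU hC ht
    rw [mem_res] at h
    simp only at h
    rcases h with h | h | h
    · exact absurd (h ▸ le_sup_right : c0 ≤ z ⊔ y) (line_u hz hc0a hy hzu (hC c0 hc0).2 hyP)
    · have h5 : c0 = c := r8 c0 hc0 (h ▸ le_sup_right)
      have h7 : c ≤ sec A u z c y := by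
        rw [← h, ← h5]
        exact le_sup_right
      have h6 := r6 h7
      exact ⟨h6.symm.trans h.symm, h5.symm⟩
    · rw [← h] at r2
      omega
  refine ⟨fun t ht h => (key t.1 t.2.1 t.2.2 ht h).1, ?_⟩
  rw [← Finset.card_product]
  refine Finset.card_le_card_of_injOn (fun t => (t.1, t.2.2)) ?_ ?_
  · rintro ⟨z, c, y⟩ ht
    rw [Finset.mem_coe, Finset.mem_filter] at ht
    obtain ⟨h1, h2, h3, h4⟩ := hT _ ht.1
    simp only at h1 h2 h3 h4
    obtain ⟨k1, k2⟩ := key z c y ht.1 ht.2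
    rw [Finset.mem_coe, Finset.mem_product, Finset.mem_filter]
    exact ⟨⟨h1, k1 ▸ le_sup_left⟩, h3⟩
  · rintro ⟨z, c, y⟩ ht ⟨z', c', y'⟩ ht' h
    rw [Finset.mem_coe, Finset.mem_filter] at ht ht'
    obtain ⟨k1, k2⟩ := key z c y ht.1 ht.2
    obtain ⟨k1', k2'⟩ := key z' c' y' ht'.1 ht'.2
    simp only [Prod.mk.injEq] at h
    rw [h.1, h.2, k2, k2']

/-- The load of a plane. -/
theorem load_plane {A U C : Finset L} {u : L} {T : Finset (L × L × L)} (hT : IsTri A U C u T)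
    (hA : ∀ a ∈ A, IsAtom a) (hu : rk u = 2)
    (hU : ∀ z ∈ U, z ∈ A ∧ ¬ z ≤ u) (hC : ∀ c ∈ C, c ∈ A ∧ c ≤ u) {H : L} (hH : rk H = 3) :
    (T.filter (fun t => H ∈ res A u t)).card ≤
      (A.filter (· ≤ H)).card * (A.filter (· ≤ H)).card := by
  have key : ∀ z c y, (z, c, y) ∈ T → H ∈ res A u (z, c, y) → H = z ⊔ c ⊔ y := by
    intro z c y ht h
    obtain ⟨hz, hzu, hc, hcu, hy, hyP, r1, r2, r3, r4, r5, r6, r7, r8⟩ :=
      tri_facts hT hA hu hU hC ht
    rw [mem_res] at h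
    simp only at h
    rcases h with h | h | h
    · rw [← h] at r1
      omega
    · rw [← h] at r3
      omega
    · exact h
  rw [← Finset.card_product]
  refine Finset.card_le_card_of_injOn (fun t => (t.1, t.2.2)) ?_ ?_
  · rintro ⟨z, c, y⟩ ht
    rw [Finset.mem_coe, Finset.mem_filter] at ht
    obtain ⟨h1, h2, h3, h4⟩ := hT _ ht.1
    simp only at h1 h2 h3 h4
    have k1 := key z c y ht.1 ht.2
    rw [Finset.mem_coe, Finset.mem_product, Finset.mem_filter, Finset.mem_filter]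
    exact ⟨⟨(hU z h1).1, k1 ▸ le_sup_left.trans le_sup_left⟩, h3, k1 ▸ le_sup_right⟩
  · rintro ⟨z, c, y⟩ ht ⟨z', c', y'⟩ ht' h
    rw [Finset.mem_coe, Finset.mem_filter] at ht ht'
    have k1 := key z c y ht.1 ht.2
    have k1' := key z' c' y' ht'.1 ht'.2
    obtain ⟨hz, hzu, hc, hcu, hy, hyP, -⟩ := tri_facts hT hA hu hU hC ht.1
    have hc' := (hT _ ht'.1).2.1
    simp only at hc'
    have h5 : c' = c := plane_u hu hz hc hy hzu hcu hyP (hA c' (hC c' hc').1) (hC c' hc').2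
      (by rw [← k1, k1']; exact le_sup_right.trans le_sup_left)
    simp only [Prod.mk.injEq] at h
    rw [h.1, h.2, h5]

end Pool.Agent.Helper4.LL
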