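import Pool.Agent.Helper4.LL.Sharp

/-!
# A long line in rank four: the theorem
-/

set_option autoImplicit false
set_option linter.unusedSectionVars false

namespace Pool.Agent.Helper4.LL

open Pool.Agent.Helper28.BPack Pool.Agent.Helper61.Motz Pool.Agent.Helper63.HM
open Pool.Agent.Helper83.BQ

/-- The rainbow theorem with natural number weights. -/
theorem rainbow_nat {α X β : Type} [DecidableEq α] [DecidableEq X] [DecidableEq β]
    [Finite β] [Nonempty α] (T : Finset α) (U : Finset X) (col : α → X)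
    (res : α → Finset β) (w : α → ℕ) (D : ℕ) (hD : 0 < D)
    (hcol : ∀ t ∈ T, col t ∈ U)
    (hload : ∀ t ∈ T, ∑ q ∈ res t, ∑ s ∈ T.filter (fun s => q ∈ res s), w s ≤ D)
    (hx : ∀ x ∈ U, D ≤ ∑ t ∈ T.filter (fun t => col t = x), w t) :
    ∃ f : X → α, (∀ x ∈ U, f x ∈ T ∧ col (f x) = x) ∧
      ∀ x ∈ U, ∀ y ∈ U, x ≠ y → Disjoint (res (f x)) (res (f y)) := by
  have hD' : (0 : ℝ) < D := by exact_mod_cast hD
  refine rainbow_res T U col res (fun t => (w t : ℝ) / D) (fun _ _ => by positivity) hcol ?_ ?_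
  · intro t ht
    have h1 : ((∑ q ∈ res t, ∑ s ∈ T.filter (fun s => q ∈ res s), w s : ℕ) : ℝ) ≤ D := by
      exact_mod_cast hload t ht
    push_cast at h1
    simp only [← Finset.sum_div]
    rw [div_le_one hD']
    exact h1
  · intro x hxU
    have h1 : (D : ℝ) ≤ ((∑ t ∈ T.filter (fun t => col t = x), w t : ℕ) : ℝ) := by
      exact_mod_cast hx x hxU
    push_cast at h1
    rw [← Finset.sum_div, le_div_iff₀ hD', one_mul]
    exact h1

variable {L : Type} [Lattice L] [BoundedOrder L] [Finite L] [IsUpperModularLattice L]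
variable [DecidableEq L] [DecidableRel (α := L) (· ≤ ·)]

/-- **A long line**, sharp form. -/
theorem crit4_sharp {A : Finset L} (hA : ∀ a ∈ A, IsAtom a) (hr : rk (A.sup id) = 4)
    {k s N : ℕ} (hk : 2 ≤ k) (h0 : 16 * k ^ 2 ≤ s)
    (hs : ∀ g, rk g = 2 → (A.filter (· ≤ g)).card ≤ s)
    {u : L} (hu : rk u = 2) (hus : s ≤ (A.filter (· ≤ u)).card)
    (hN : ∀ H, rk H = 3 → (A.filter (· ≤ H)).card ≤ N)
    (h2 : 16 * k ^ 2 * s ^ 2 ≤ A.card)
    (h1 : k ^ 2 * N ≤ (k - 1) ^ 2 * s ^ 2)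
    (h4 : k * N ^ 2 ≤ (k - 1) * (s * A.card)) : Crit4 A := by
  have hs64 : 64 ≤ s := by nlinarith
  -- a point off a given element of rank at most three
  have hex : ∀ x : L, rk x < 4 → ∃ a ∈ A, ¬ a ≤ x := by
    intro x hx
    by_contra hcon
    push Not at hcon
    have h1 : A.sup id ≤ x := Finset.sup_le hcon
    have h2 := rk_mono h1
    omega
  obtain ⟨a, ha, hau⟩ := hex u (by omega)
  obtain ⟨Q, hQdef⟩ : ∃ Q, Q = a ⊔ u := ⟨_, rfl⟩
  have hQ : rk Q = 3 := hQdef ▸ rk_zu hu (hA a ha) hau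
  have huQ : u ≤ Q := hQdef ▸ le_sup_right
  have haQ : a ≤ Q := hQdef ▸ le_sup_left
  obtain ⟨o, ho, hoQ⟩ := hex Q (by omega)
  have hoa := hA o ho
  set P := A.filter (· ≤ Q) with hPdef
  have mP : ∀ x, x ∈ P ↔ x ∈ A ∧ x ≤ Q := fun x => Finset.mem_filter
  set C := A.filter (· ≤ u) with hCdef
  have mC : ∀ x, x ∈ C ↔ x ∈ A ∧ x ≤ u := fun x => Finset.mem_filter
  have hC : ∀ c ∈ C, c ∈ A ∧ c ≤ u := fun c hc => (mC c).mp hc
  have hC' : ∀ c ∈ C, IsAtom c ∧ c ≤ u := fun c hc => ⟨hA c (hC c hc).1, (hC c hc).2⟩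
  have hCs : C.card = s := le_antisymm (hs u hu) hus
  -- the plane `Q` is spanned by its points
  have hPr : rk (P.sup id) = 3 := by
    obtain ⟨c1, hc1, c2, hc2, hne⟩ := Finset.one_lt_card.mp (show 1 < C.card by omega)
    have e : c1 ⊔ c2 = u := line_eq (hC' c1 hc1).1 (hC' c2 hc2).1 hne (hC' c1 hc1).2
      (hC' c2 hc2).2 hu
    have hCP : ∀ c ∈ C, c ∈ P := fun c hc => (mP c).mpr ⟨(hC c hc).1, (hC c hc).2.trans huQ⟩
    have k1 : Q ≤ P.sup id := by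
      rw [hQdef, ← e]
      exact sup_le (Finset.le_sup (f := id) ((mP a).mpr ⟨ha, haQ⟩))
        (sup_le (Finset.le_sup (f := id) (hCP c1 hc1)) (Finset.le_sup (f := id) (hCP c2 hc2)))
    have k2 : P.sup id ≤ Q := Finset.sup_le fun x hx => ((mP x).mp hx).2
    rw [le_antisymm k2 k1, hQ]
  have h3 : Crit3 P := Pool.Agent.Helper80.BP.crit3_all P (fun a ha => hA a ((mP a).mp ha).1) hPr
  have hB4 := crit4_base hA hQ ho hoQ h3
  have hBm : ∀ a, a ∈ insert o P → a = o ∨ (a ∈ A ∧ a ≤ Q) := by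
    intro a ha
    rcases Finset.mem_insert.mp ha with h | h
    · exact Or.inl h
    · exact Or.inr ((mP a).mp h)
  -- the users
  set U : Finset L := A.filter (fun z => ¬ z ≤ Q ∧ z ≠ o) with hUdef
  have mU : ∀ z, z ∈ U ↔ z ∈ A ∧ ¬ z ≤ Q ∧ z ≠ o := fun z => Finset.mem_filter
  have hU : ∀ z ∈ U, z ∈ A ∧ ¬ z ≤ u := fun z hz =>
    ⟨((mU z).mp hz).1, fun h => ((mU z).mp hz).2.1 (h.trans huQ)⟩
  have hU' : ∀ z ∈ U, IsAtom z ∧ ¬ z ≤ u := fun z hz => ⟨hA z (hU z hz).1, (hU z hz).2⟩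
  have hxB : ∀ x ∈ A, x ∉ insert o P → x ∈ U := by
    intro x hx h
    rw [Finset.mem_insert, mP] at h
    push Not at h
    exact (mU x).mpr ⟨hx, h.2 hx, h.1⟩
  have hUle : ∀ q, (U.filter (· ≤ q)).card ≤ (A.filter (· ≤ q)).card := by
    intro q
    refine Finset.card_le_card fun x hx => ?_
    obtain ⟨h5, h6⟩ := Finset.mem_filter.mp hx
    exact Finset.mem_filter.mpr ⟨(hU x h5).1, h6⟩
  -- the triples
  set T : Finset (L × L × L) := (U ×ˢ C ×ˢ A).filter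
    (fun t => ¬ t.2.2 ≤ t.1 ⊔ u ∧ ¬ o ≤ t.1 ⊔ t.2.1 ⊔ t.2.2) with hTdef
  have mT : ∀ t : L × L × L, t ∈ T ↔ (t.1 ∈ U ∧ t.2.1 ∈ C ∧ t.2.2 ∈ A) ∧
      ¬ t.2.2 ≤ t.1 ⊔ u ∧ ¬ o ≤ t.1 ⊔ t.2.1 ⊔ t.2.2 := by
    intro t
    rw [hTdef, Finset.mem_filter, Finset.mem_product, Finset.mem_product]
  have hT : IsTri A U C u T := by
    intro t ht
    obtain ⟨⟨h5, h6, h7⟩, h8, -⟩ := (mT t).mp ht
    exact ⟨h5, h6, h7, h8⟩
  -- the weights
  obtain ⟨wt, hwt⟩ : ∃ wt : L → ℕ, wt = fun ρ =>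
      if (k - 1) * s < k * (U.filter (· ≤ ρ)).card then 2 * k ^ 2 - 1 else 2 * k ^ 2 + 2 * k :=
    ⟨_, rfl⟩
  have hwle : ∀ ρ, wt ρ ≤ 2 * k ^ 2 + 2 * k := by
    intro ρ
    rw [hwt]
    dsimp only
    split_ifs <;> omega
  have hwcase : ∀ ρ, wt ρ = 2 * k ^ 2 - 1 ∨
      (wt ρ = 2 * k ^ 2 + 2 * k ∧ k * (U.filter (· ≤ ρ)).card ≤ (k - 1) * s) := by
    intro ρ
    rw [hwt]
    dsimp only
    split_ifs with h
    · exact Or.inl rfl
    · exact Or.inr ⟨rfl, not_lt.mp h⟩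
  have hWle : ∀ q, ∑ t ∈ T.filter (fun t => q ∈ res A u t), wt (t.1 ⊔ t.2.1) ≤
      (T.filter (fun t => q ∈ res A u t)).card * (2 * k ^ 2 + 2 * k) := by
    intro q
    rw [← smul_eq_mul, ← Finset.sum_const]
    exact Finset.sum_le_sum fun t _ => hwle _
  have hNs : N ≤ s ^ 2 := by
    have h5 : k ^ 2 * N ≤ k ^ 2 * s ^ 2 := h1.trans
      (Nat.mul_le_mul (Nat.pow_le_pow_left (Nat.sub_le k 1) 2) le_rfl)
    exact Nat.le_of_mul_le_mul_left h5 (by positivity)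
  -- the loads
  have hload : ∀ t ∈ T, ∑ q ∈ res A u t, ∑ t' ∈ T.filter (fun t' => q ∈ res A u t'),
      wt (t'.1 ⊔ t'.2.1) ≤ 2 * k ^ 2 * (s * A.card) := by
    rintro ⟨z, c, y⟩ ht
    obtain ⟨hz, hzu, hc, hcu, hy, hyP, r1, r2, r3, r4, r5, r6, r7, r8⟩ :=
      tri_facts hT hA hu hU hC ht
    obtain ⟨m1, m2, m3, -⟩ := hT _ ht
    simp only at m1 m2 m3
    refine le_trans (sum_three_le (fun q => ∑ t' ∈ T.filter (fun t' => q ∈ res A u t'),
      wt (t'.1 ⊔ t'.2.1)) (z ⊔ y) (sec A u z c y) (z ⊔ c ⊔ y)) ?_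
    have l1 := (hWle (z ⊔ y)).trans (Nat.mul_le_mul (load_line hT hA hu hU hC hCs hs r1
      (fun c' hc' => line_u hz (hC' c' hc').1 hy hzu (hC' c' hc').2 hyP)) le_rfl)
    have l3 := (hWle (z ⊔ c ⊔ y)).trans (Nat.mul_le_mul (load_plane hT hA hu hU hC r2) le_rfl)
    rcases sec_spec hA hu hz hc hcu hzu m3 hyP with ⟨d, hd, hd1, hd2, hd3, hd4⟩ | ⟨h5, h6⟩
    · have l2 := (hWle (sec A u z c y)).trans (Nat.mul_le_mul (load_line hT hA hu hU hC hCs hs r3
        (fun c' hc' => hd3 ▸ line_u hz (hC' c' hc').1 (hA d hd) hzu (hC' c' hc').2 hd2)) le_rfl)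
      have l3' : (A.filter (· ≤ z ⊔ c ⊔ y)).card * (A.filter (· ≤ z ⊔ c ⊔ y)).card *
          (2 * k ^ 2 + 2 * k) ≤ N * N * (2 * k ^ 2 + 2 * k) :=
        Nat.mul_le_mul (Nat.mul_le_mul (hN _ r2) (hN _ r2)) le_rfl
      have h7 := arith_one (N := N) hk h2 h4
      have h8 : (2 * s ^ 3 + 2 * s ^ 3 + N * N) * (2 * k ^ 2 + 2 * k) =
          2 * s ^ 3 * (2 * k ^ 2 + 2 * k) + 2 * s ^ 3 * (2 * k ^ 2 + 2 * k) +
            N * N * (2 * k ^ 2 + 2 * k) := by ring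
      omega
    · obtain ⟨q1, q2⟩ := load_row hT hA hu hU hC m1 m2
      have l2 : ∑ t' ∈ T.filter (fun t' => sec A u z c y ∈ res A u t'),
          wt (t'.1 ⊔ t'.2.1) ≤ (U.filter (· ≤ z ⊔ c)).card * A.card * wt (z ⊔ c) := by
        rw [h5]
        refine le_trans (Finset.sum_le_sum (g := fun _ => wt (z ⊔ c)) fun t' ht' => ?_) ?_
        · obtain ⟨h8, h9⟩ := Finset.mem_filter.mp ht'
          rw [q1 t' h8 h9]
        · rw [Finset.sum_const, smul_eq_mul]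
          exact Nat.mul_le_mul q2 le_rfl
      have h9 : (A.filter (· ≤ z ⊔ c ⊔ y)).card ≤ 2 * s := by
        have k1 := hs _ (rk_zc hz hc hzu hcu)
        have k2 := hs _ r1
        omega
      have l3' : (A.filter (· ≤ z ⊔ c ⊔ y)).card * (A.filter (· ≤ z ⊔ c ⊔ y)).card *
          (2 * k ^ 2 + 2 * k) ≤ (2 * s) * (2 * s) * (2 * k ^ 2 + 2 * k) :=
        Nat.mul_le_mul (Nat.mul_le_mul h9 h9) le_rfl
      have h7 := arith_two (R := (U.filter (· ≤ z ⊔ c)).card) (w := wt (z ⊔ c)) hk h0 h2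
        ((hUle _).trans (hs _ (rk_zc hz hc hzu hcu))) (hwcase _)
      omega
  -- the weight of a user
  have hclass : ∀ x ∈ U, 2 * k ^ 2 * (s * A.card) ≤
      ∑ t ∈ T.filter (fun t => t.1 = x), wt (t.1 ⊔ t.2.1) := by
    intro x hx
    have hxu := hU' x hx
    have hxo : x ≠ o := ((mU x).mp hx).2.2
    set Y := A.filter (fun y => ¬ y ≤ x ⊔ u) with hY
    set G := (C ×ˢ Y).filter (fun p => ¬ o ≤ x ⊔ p.1 ⊔ p.2) with hG
    have hbad := card_through (A := A) (C := C) (o := o) hA hs hu hC' hxu.1 hoa hxu.2 hxo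
    rw [hCs] at hbad
    have e1 : ∑ p ∈ G, wt (x ⊔ p.1) ≤ ∑ t ∈ T.filter (fun t => t.1 = x), wt (t.1 ⊔ t.2.1) := by
      have hinj : Set.InjOn (fun p : L × L => (x, p.1, p.2)) (G : Set (L × L)) := by
        rintro ⟨c, y⟩ _ ⟨c', y'⟩ _ h
        simp only [Prod.mk.injEq, true_and] at h
        rw [h.1, h.2]
      have e2 : ∑ t ∈ G.image (fun p => (x, p.1, p.2)), wt (t.1 ⊔ t.2.1) =
          ∑ p ∈ G, wt (x ⊔ p.1) := Finset.sum_image hinj
      rw [← e2]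
      refine Finset.sum_le_sum_of_subset fun t ht => ?_
      obtain ⟨⟨c, y⟩, hp, rfl⟩ := Finset.mem_image.mp ht
      rw [hG, Finset.mem_filter, Finset.mem_product] at hp
      obtain ⟨⟨h5, h67⟩, h8⟩ := hp
      obtain ⟨h6, h7⟩ := Finset.mem_filter.mp h67
      simp only at h5 h6 h7 h8
      rw [Finset.mem_filter, mT]
      exact ⟨⟨⟨hx, h5, h6⟩, h7, h8⟩, rfl⟩
    have e3 : ∑ p ∈ C ×ˢ Y, wt (x ⊔ p.1) ≤ ∑ p ∈ G, wt (x ⊔ p.1) +
        (A.card + s * s) * (2 * k ^ 2 + 2 * k) := by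
      rw [← Finset.sum_filter_add_sum_filter_not (C ×ˢ Y) (fun p => ¬ o ≤ x ⊔ p.1 ⊔ p.2)]
      refine Nat.add_le_add le_rfl ?_
      refine le_trans (Finset.sum_le_sum (g := fun _ => 2 * k ^ 2 + 2 * k)
        fun p _ => hwle _) ?_
      rw [Finset.sum_const, smul_eq_mul]
      refine Nat.mul_le_mul (le_trans (Finset.card_le_card fun p hp => ?_) hbad) le_rfl
      rw [Finset.mem_filter, not_not] at hp
      exact Finset.mem_filter.mpr hp
    set l := (C.filter (fun c => (k - 1) * s < k * (U.filter (· ≤ x ⊔ c)).card)).card with hl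
    have e4 : ∑ p ∈ C ×ˢ Y, wt (x ⊔ p.1) =
        Y.card * (l * (2 * k ^ 2 - 1) + (s - l) * (2 * k ^ 2 + 2 * k)) := by
      rw [Finset.sum_product_right]
      dsimp only
      rw [Finset.sum_const, smul_eq_mul]
      congr 1
      rw [hwt]
      dsimp only
      rw [Finset.sum_ite, Finset.sum_const, Finset.sum_const, smul_eq_mul, smul_eq_mul]
      have k1 := Finset.card_filter_add_card_filter_not (s := C)
        (fun c => (k - 1) * s < k * (U.filter (· ≤ x ⊔ c)).card)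
      have k2 : (C.filter (fun c => ¬ (k - 1) * s < k * (U.filter (· ≤ x ⊔ c)).card)).card =
          s - l := by omega
      rw [k2]
    have e5 : A.card - N ≤ Y.card := by
      have k1 : (A.filter (fun y => y ≤ x ⊔ u)).card + Y.card = A.card :=
        Finset.card_filter_add_card_filter_not (s := A) (fun y => y ≤ x ⊔ u)
      have k2 := hN (x ⊔ u) (rk_zu hu hxu.1 hxu.2)
      omega
    have e6 : (U.filter (· ≤ x ⊔ u)).card + s ≤ N := by
      refine le_trans ?_ (hN (x ⊔ u) (rk_zu hu hxu.1 hxu.2))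
      rw [← hCs, ← Finset.card_union_of_disjoint]
      · refine Finset.card_le_card fun y hy => ?_
        rw [Finset.mem_union, Finset.mem_filter] at hy
        rw [Finset.mem_filter]
        rcases hy with h | h
        · exact ⟨(hU y h.1).1, h.2⟩
        · exact ⟨(hC y h).1, (hC y h).2.trans le_sup_right⟩
      · rw [Finset.disjoint_left]
        intro y hy hy'
        exact (hU y (Finset.mem_filter.mp hy).1).2 (hC y hy').2
    have e7 : k * l ≤ (k - 1) * s := card_long (N := N) hU' hu hC' hx hk (by omega) h1 le_rfl e6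
    have e8 : l ≤ s := by
      rw [hl, ← hCs]
      exact Finset.card_filter_le _ _
    have e9 := arith_class hk h0 h2 hNs e7 e8
    have e10 := Nat.mul_le_mul e5
      (le_refl (l * (2 * k ^ 2 - 1) + (s - l) * (2 * k ^ 2 + 2 * k)))
    have e11 : (2 * k ^ 2 + 2 * k) * (A.card + s * s) = (A.card + s * s) * (2 * k ^ 2 + 2 * k) :=
      mul_comm _ _
    omega
  -- the choice
  have hD : 0 < 2 * k ^ 2 * (s * A.card) := by
    have : 0 < A.card := Finset.card_pos.mpr ⟨a, ha⟩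
    positivity
  obtain ⟨f, hf1, hf2⟩ := rainbow_nat T U (fun t => t.1) (res A u)
    (fun t => wt (t.1 ⊔ t.2.1)) (2 * k ^ 2 * (s * A.card)) hD
    (fun t ht => (hT t ht).1) hload hclass
  -- the second point
  have key : ∀ x, ∃ d, x ∈ U → d ∈ A ∧ (f x).2.2 ∈ A ∧ rk (x ⊔ (f x).2.2) = 2 ∧ rk (x ⊔ d) = 2 ∧
      rk (x ⊔ (f x).2.2 ⊔ d) = 3 ∧ x ⊔ (f x).2.2 ≠ x ⊔ d ∧ ¬ o ≤ x ⊔ (f x).2.2 ⊔ d ∧
      x ⊔ (f x).2.2 ∈ res A u (f x) ∧ x ⊔ d ∈ res A u (f x) ∧
      x ⊔ (f x).2.2 ⊔ d ∈ res A u (f x) := by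
    intro x
    by_cases hx : x ∈ U
    · obtain ⟨n1, n2⟩ := hf1 x hx
      obtain ⟨z, c, y, hfx⟩ : ∃ z c y, f x = (z, c, y) := ⟨_, _, _, rfl⟩
      rw [hfx] at n1 n2 ⊢
      simp only at n2
      subst n2
      obtain ⟨hz, hzu, hc, hcu, hy, hyP, r1, r2, r3, r4, r5, r6, r7, r8⟩ :=
        tri_facts hT hA hu hU hC n1
      obtain ⟨⟨m1, m2, m3⟩, -, m5⟩ := (mT _).mp n1
      simp only at m1 m2 m3 m5 ⊢
      obtain ⟨d, hdA, hd⟩ : ∃ d ∈ A, z ⊔ d = sec A u z c y := by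
        rcases sec_spec hA hu hz hc hcu hzu m3 hyP with ⟨d, hd, -, -, hd3, -⟩ | ⟨h5, -⟩
        · exact ⟨d, hd, hd3⟩
        · exact ⟨c, (hC c m2).1, h5.symm⟩
      have hdy : ¬ d ≤ z ⊔ y := by
        intro h
        refine r7 (eq_of_le_of_rk ?_ (by rw [r1, r3]))
        rw [← hd]
        exact sup_le le_sup_left h
      have hr3 : rk (z ⊔ y ⊔ d) = 3 := by rw [rk_sup_atom (hA d hdA) hdy, r1]
      have hpl : z ⊔ y ⊔ d = z ⊔ c ⊔ y := eq_of_le_of_rk
        (sup_le (sup_le (le_sup_left.trans le_sup_left) le_sup_right)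
          (le_sup_right.trans (hd ▸ r5))) (by rw [hr3, r2])
      refine ⟨d, fun _ => ⟨hdA, m3, r1, by rw [hd]; exact r3, hr3, ?_, by rw [hpl]; exact m5,
        ?_, ?_, ?_⟩⟩
      · rw [hd]
        exact fun h => r7 h.symm
      · rw [mem_res]
        exact Or.inl rfl
      · rw [mem_res, hd]
        exact Or.inr (Or.inl rfl)
      · rw [mem_res, hpl]
        exact Or.inr (Or.inr rfl)
    · exact ⟨o, fun h => absurd h hx⟩
  choose d hd using key
  have hres : ∀ x ∈ A, x ∉ insert o P → ∀ q : L, (q = x ⊔ (f x).2.2 ∨ q = x ⊔ d x ∨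
      q = x ⊔ (f x).2.2 ⊔ d x) → ∀ y ∈ A, y ∉ insert o P →
      (q = y ⊔ (f y).2.2 ∨ q = y ⊔ d y ∨ q = y ⊔ (f y).2.2 ⊔ d y) → x = y := by
    intro x hx hxB' q hq y hy hyB hq'
    by_contra hne
    have hxU := hxB x hx hxB'
    have hyU := hxB y hy hyB
    obtain ⟨-, -, -, -, -, -, -, x1, x2, x3⟩ := hd x hxU
    obtain ⟨-, -, -, -, -, -, -, y1, y2, y3⟩ := hd y hyU
    have h5 := hf2 x hxU y hyU hne
    rw [Finset.disjoint_left] at h5
    refine h5 (a := q) ?_ ?_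
    · rcases hq with rfl | rfl | rfl
      · exact x1
      · exact x2
      · exact x3
    · rcases hq' with h | h | h
      · rw [h]; exact y1
      · rw [h]; exact y2
      · rw [h]; exact y3
  -- a line through `x` off `Q` which does not pass through `o`
  have hline : ∀ x ∈ A, ¬ x ≤ Q → ∀ l, rk l = 2 → x ≤ l → ¬ o ≤ l →
      ∀ a ∈ insert o P, ∀ e ∈ insert o P, a ≠ e → a ≤ l → e ≤ l → False := by
    intro x hx hxQ l hl hxl hol a ha e he hae hal hel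
    rcases hBm a ha with rfl | ⟨ha1, ha2⟩
    · exact hol hal
    · rcases hBm e he with rfl | ⟨he1, he2⟩
      · exact hol hel
      · have h5 := line_eq (hA a ha1) (hA e he1) hae hal hel hl
        exact hxQ (hxl.trans (h5 ▸ sup_le ha2 he2))
  have hplane : ∀ x ∈ A, ¬ x ≤ Q → ∀ p, rk p = 3 → x ≤ p → ¬ o ≤ p →
      ∀ a ∈ insert o P, ∀ e ∈ insert o P, ∀ t ∈ insert o P, rk (a ⊔ e ⊔ t) = 3 →
      a ≤ p → e ≤ p → t ≤ p → False := by
    intro x hx hxQ p hp hxp hop a ha e he t ht hr hap hep htp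
    rcases hBm a ha with rfl | ⟨ha1, ha2⟩
    · exact hop hap
    rcases hBm e he with rfl | ⟨he1, he2⟩
    · exact hop hep
    rcases hBm t ht with rfl | ⟨ht1, ht2⟩
    · exact hop htp
    have h5 : a ⊔ e ⊔ t = p := eq_of_le_of_rk (sup_le (sup_le hap hep) htp) (by rw [hr, hp])
    exact hxQ (hxp.trans (h5 ▸ sup_le (sup_le ha2 he2) ht2))
  have hnQ : ∀ x ∈ U, ¬ x ≤ Q := fun x hx => ((mU x).mp hx).2.1
  refine nPeel (B := insert o P) (c' := fun x => (f x).2.2) (d' := d) hA ?_ hB4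
    ?_ ?_ ?_ ?_ ?_ ?_ ?_ ?_
  · intro a ha
    rcases hBm a ha with rfl | h
    · exact ho
    · exact h.1
  · intro x hx hxB'
    obtain ⟨h5, h6, h7, h8, h9, -⟩ := hd x (hxB x hx hxB')
    exact ⟨h6, h5, h9⟩
  · intro x hx hxB' y hy hyB e
    exact hres x hx hxB' _ (Or.inl rfl) y hy hyB (Or.inl e)
  · intro x hx hxB' y hy hyB e
    exact hres x hx hxB' _ (Or.inr (Or.inl rfl)) y hy hyB (Or.inr (Or.inl e))
  · intro x hx hxB' y hy hyB e
    have h5 : x = y := hres x hx hxB' _ (Or.inl rfl) y hy hyB (Or.inr (Or.inl e))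
    subst h5
    obtain ⟨-, -, -, -, -, h6, -⟩ := hd x (hxB x hx hxB')
    exact h6 e
  · intro x hx hxB' y hy hyB e
    exact hres x hx hxB' _ (Or.inr (Or.inr rfl)) y hy hyB (Or.inr (Or.inr e))
  · intro x hx hxB'
    obtain ⟨-, -, h7, h8, h9, -, h10, -⟩ := hd x (hxB x hx hxB')
    exact hline x hx (hnQ x (hxB x hx hxB')) _ h7 le_sup_left
      (fun h' => h10 (h'.trans le_sup_left))
  · intro x hx hxB'
    obtain ⟨-, -, h7, h8, h9, -, h10, -⟩ := hd x (hxB x hx hxB')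
    exact hline x hx (hnQ x (hxB x hx hxB')) _ h8 le_sup_left
      (fun h' => h10 (h'.trans (sup_le (le_sup_left.trans le_sup_left) le_sup_right)))
  · intro x hx hxB'
    obtain ⟨-, -, h7, h8, h9, -, h10, -⟩ := hd x (hxB x hx hxB')
    exact hplane x hx (hnQ x (hxB x hx hxB')) _ h9 (le_sup_left.trans le_sup_left) h10

end Pool.Agent.Helper4.LL
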