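import Pool.Agent.Helper4.LL.Loads

/-!
# A long line in rank four: the sharp form

`u` is a longest line, with `s` points, all planes have at most `N` points, and there are `n`
points.  If `16 k² ≤ s`, `16 k² s² ≤ n`, `k² N ≤ (k - 1)² s²` and `k N² ≤ (k - 1) s n`, then
rank four data exist.
-/

set_option autoImplicit false
set_option linter.unusedSectionVars false

namespace Pool.Agent.Helper4.LL

open Pool.Agent.Helper28.BPack Pool.Agent.Helper61.Motz Pool.Agent.Helper63.HM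
open Pool.Agent.Helper83.BQ

section arith

/-- The number of long rows. -/
theorem arith_long {k s N l m : ℕ} (hk : 2 ≤ k) (hs : 1 ≤ s)
    (h1 : k ^ 2 * N ≤ (k - 1) ^ 2 * s ^ 2)
    (h2 : m + s ≤ N) (h3 : l * ((k - 1) * s) ≤ k * m + l * (k - 1)) :
    k * l ≤ (k - 1) * s := by
  obtain ⟨j, rfl⟩ : ∃ j, k = j + 1 := ⟨k - 1, by omega⟩
  obtain ⟨t, rfl⟩ : ∃ t, s = t + 1 := ⟨s - 1, by omega⟩
  simp only [Nat.add_sub_cancel] at h1 h3 ⊢
  by_contra hcon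
  push Not at hcon
  have h4 : l * j * t ≤ (j + 1) * m := by
    have e1 : l * (j * (t + 1)) = l * j * t + l * j := by ring
    omega
  have h5 : (j + 1) * (l * j * t) ≤ (j + 1) ^ 2 * m := by
    calc (j + 1) * (l * j * t) ≤ (j + 1) * ((j + 1) * m) := Nat.mul_le_mul le_rfl h4
      _ = (j + 1) ^ 2 * m := by ring
  have h6 : (j + 1) ^ 2 * m + (j + 1) ^ 2 * (t + 1) ≤ j ^ 2 * (t + 1) ^ 2 := by
    calc (j + 1) ^ 2 * m + (j + 1) ^ 2 * (t + 1) = (j + 1) ^ 2 * (m + (t + 1)) := by ring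
      _ ≤ (j + 1) ^ 2 * N := Nat.mul_le_mul le_rfl h2
      _ ≤ j ^ 2 * (t + 1) ^ 2 := h1
  have h7 : (j * (t + 1)) * (j * t) ≤ (j + 1) * (l * j * t) := by
    calc (j * (t + 1)) * (j * t) ≤ ((j + 1) * l) * (j * t) := Nat.mul_le_mul hcon.le le_rfl
      _ = (j + 1) * (l * j * t) := by ring
  have h8 : j ^ 2 * (t + 1) ^ 2 = (j * (t + 1)) * (j * t) + j ^ 2 * (t + 1) := by ring
  have h9 : (j + 1) ^ 2 * (t + 1) ≤ j ^ 2 * (t + 1) := by omega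
  have h10 : (j + 1) ^ 2 ≤ j ^ 2 := Nat.le_of_mul_le_mul_right h9 (by omega)
  nlinarith

/-- The weight of a user. -/
theorem arith_class {k s n N l : ℕ} (hk : 2 ≤ k) (h0 : 16 * k ^ 2 ≤ s)
    (h2 : 16 * k ^ 2 * s ^ 2 ≤ n) (h1 : N ≤ s ^ 2) (hl : k * l ≤ (k - 1) * s) (hls : l ≤ s) :
    2 * k ^ 2 * (s * n) + (2 * k ^ 2 + 2 * k) * (n + s * s) ≤
      (n - N) * (l * (2 * k ^ 2 - 1) + (s - l) * (2 * k ^ 2 + 2 * k)) := by
  obtain ⟨j, rfl⟩ : ∃ j, k = j + 1 := ⟨k - 1, by omega⟩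
  obtain ⟨r, rfl⟩ : ∃ r, s = l + r := ⟨s - l, by omega⟩
  have hN : N ≤ n := by
    calc N ≤ (l + r) ^ 2 := h1
      _ = 1 * (l + r) ^ 2 := by ring
      _ ≤ 16 * (j + 1) ^ 2 * (l + r) ^ 2 := Nat.mul_le_mul (by nlinarith) le_rfl
      _ ≤ n := h2
  obtain ⟨p, rfl⟩ : ∃ p, n = N + p := ⟨n - N, by omega⟩
  simp only [Nat.add_sub_cancel, Nat.add_sub_cancel_left] at hl ⊢
  have e1 : 2 * (j + 1) ^ 2 - 1 = 2 * j ^ 2 + 4 * j + 1 := by
    have : 2 * (j + 1) ^ 2 = 2 * j ^ 2 + 4 * j + 1 + 1 := by ring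
    omega
  rw [e1]
  -- the sum over the colours
  have h3 : (l + r) * (2 * (j + 1) ^ 2 + 1) ≤
      l * (2 * j ^ 2 + 4 * j + 1) + r * (2 * (j + 1) ^ 2 + 2 * (j + 1)) := by
    have h4 : l ≤ r * j := by nlinarith
    nlinarith
  set s := l + r with hs
  have hj : 1 ≤ j := by omega
  have h5 : p * (s * (2 * (j + 1) ^ 2 + 1)) ≤ p * (l * (2 * j ^ 2 + 4 * j + 1) +
      r * (2 * (j + 1) ^ 2 + 2 * (j + 1))) := Nat.mul_le_mul le_rfl h3
  refine le_trans ?_ h5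
  set K := (j + 1) ^ 2 with hK
  have hK4 : 4 ≤ K := by nlinarith
  have hKk : 2 * (j + 1) ≤ K := by nlinarith
  -- `N s (2K+1) + 3K (n + s²) ≤ s n`
  have h6 : (2 * K + 2 * (j + 1)) * (N + p + s * s) ≤ 3 * K * (N + p + s * s) :=
    Nat.mul_le_mul (by omega) le_rfl
  have h7 : 4 * (3 * K * (N + p + s * s)) ≤ s * (N + p) := by
    have h8 : s * s ≤ N + p := by
      calc s * s = 1 * s ^ 2 := by ring
        _ ≤ 16 * K * s ^ 2 := Nat.mul_le_mul (by omega) le_rfl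
        _ ≤ N + p := h2
    have h9 : 64 * (s * s) ≤ N + p := by
      calc 64 * (s * s) = 64 * s ^ 2 := by ring
        _ ≤ 16 * K * s ^ 2 := Nat.mul_le_mul (by omega) le_rfl
        _ ≤ N + p := h2
    calc 4 * (3 * K * (N + p + s * s)) ≤ 16 * K * (N + p) := by nlinarith
      _ ≤ s * (N + p) := Nat.mul_le_mul h0 le_rfl
  have h10 : 4 * (N * (s * (2 * K + 1))) ≤ s * (N + p) := by
    calc 4 * (N * (s * (2 * K + 1))) ≤ 4 * (s ^ 2 * (s * (3 * K))) :=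
          Nat.mul_le_mul le_rfl (Nat.mul_le_mul h1 (Nat.mul_le_mul le_rfl (by omega)))
      _ = s * (12 * K * s ^ 2) := by ring
      _ ≤ s * (16 * K * s ^ 2) := Nat.mul_le_mul le_rfl (Nat.mul_le_mul (by omega) le_rfl)
      _ ≤ s * (N + p) := Nat.mul_le_mul le_rfl h2
  have h11 : p * (s * (2 * K + 1)) + N * (s * (2 * K + 1)) =
      2 * K * (s * (N + p)) + s * (N + p) := by ring
  omega

/-- Two lines missing `u` and a plane. -/
theorem arith_one {k s n N : ℕ} (hk : 2 ≤ k) (h2 : 16 * k ^ 2 * s ^ 2 ≤ n)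
    (h4 : k * N ^ 2 ≤ (k - 1) * (s * n)) :
    (2 * s ^ 3 + 2 * s ^ 3 + N * N) * (2 * k ^ 2 + 2 * k) ≤ 2 * k ^ 2 * (s * n) := by
  obtain ⟨j, rfl⟩ : ∃ j, k = j + 1 := ⟨k - 1, by omega⟩
  simp only [Nat.add_sub_cancel] at h4
  have e1 : 2 * (j + 1) ^ 2 + 2 * (j + 1) = 2 * (j + 1) * (j + 2) := by ring
  rw [e1]
  have h5 : N * N * (2 * (j + 1) * (j + 2)) ≤ 2 * (j + 2) * (j * (s * n)) := by
    calc N * N * (2 * (j + 1) * (j + 2)) = 2 * (j + 2) * ((j + 1) * N ^ 2) := by ring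
      _ ≤ 2 * (j + 2) * (j * (s * n)) := Nat.mul_le_mul le_rfl h4
  have h6 : (2 * s ^ 3 + 2 * s ^ 3) * (2 * (j + 1) * (j + 2)) ≤ 2 * (s * n) := by
    have h7 : s * (16 * (j + 1) ^ 2 * s ^ 2) ≤ s * n := Nat.mul_le_mul le_rfl h2
    have h8 : (j + 1) * (j + 2) ≤ 2 * (j + 1) ^ 2 := by nlinarith
    calc (2 * s ^ 3 + 2 * s ^ 3) * (2 * (j + 1) * (j + 2)) =
          8 * s ^ 3 * ((j + 1) * (j + 2)) := by ring
      _ ≤ 8 * s ^ 3 * (2 * (j + 1) ^ 2) := Nat.mul_le_mul le_rfl h8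
      _ = s * (16 * (j + 1) ^ 2 * s ^ 2) := by ring
      _ ≤ s * n := h7
      _ ≤ 2 * (s * n) := by omega
  have e2 : 2 * (j + 1) ^ 2 * (s * n) = 2 * (s * n) + 2 * (j + 2) * (j * (s * n)) := by ring
  rw [e2, add_mul]
  omega

/-- A line missing `u`, a row and a plane covered by two lines. -/
theorem arith_two {k s n R w : ℕ} (hk : 2 ≤ k) (h0 : 16 * k ^ 2 ≤ s)
    (h2 : 16 * k ^ 2 * s ^ 2 ≤ n) (hR : R ≤ s)
    (hw : w = 2 * k ^ 2 - 1 ∨ (w = 2 * k ^ 2 + 2 * k ∧ k * R ≤ (k - 1) * s)) :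
    2 * s ^ 3 * (2 * k ^ 2 + 2 * k) + R * n * w + (2 * s) * (2 * s) * (2 * k ^ 2 + 2 * k) ≤
      2 * k ^ 2 * (s * n) := by
  have hsmall : 2 * s ^ 3 * (2 * k ^ 2 + 2 * k) + (2 * s) * (2 * s) * (2 * k ^ 2 + 2 * k) ≤
      s * n := by
    have h7 : s * (16 * k ^ 2 * s ^ 2) ≤ s * n := Nat.mul_le_mul le_rfl h2
    have h8 : 2 * k ^ 2 + 2 * k ≤ 3 * k ^ 2 := by nlinarith
    have hs64 : 64 ≤ s := by nlinarith
    have h9 : (2 * s) * (2 * s) ≤ s ^ 3 := by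
      calc (2 * s) * (2 * s) = 4 * s ^ 2 := by ring
        _ ≤ s * s ^ 2 := Nat.mul_le_mul (by omega) le_rfl
        _ = s ^ 3 := by ring
    calc 2 * s ^ 3 * (2 * k ^ 2 + 2 * k) + (2 * s) * (2 * s) * (2 * k ^ 2 + 2 * k)
        ≤ 2 * s ^ 3 * (3 * k ^ 2) + s ^ 3 * (3 * k ^ 2) :=
          Nat.add_le_add (Nat.mul_le_mul le_rfl h8) (Nat.mul_le_mul h9 h8)
      _ = s * (9 * k ^ 2 * s ^ 2) := by ring
      _ ≤ s * (16 * k ^ 2 * s ^ 2) :=
          Nat.mul_le_mul le_rfl (Nat.mul_le_mul (by omega) le_rfl)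
      _ ≤ s * n := h7
  have hk4 : 4 ≤ k ^ 2 := by nlinarith
  rcases hw with rfl | ⟨rfl, hR2⟩
  · have h3 : R * n * (2 * k ^ 2 - 1) ≤ s * n * (2 * k ^ 2 - 1) :=
      Nat.mul_le_mul (Nat.mul_le_mul hR le_rfl) le_rfl
    have h4 : s * n * (2 * k ^ 2 - 1) + s * n = 2 * k ^ 2 * (s * n) := by
      obtain ⟨p, hp⟩ : ∃ p, 2 * k ^ 2 = p + 1 := ⟨2 * k ^ 2 - 1, by omega⟩
      rw [hp, Nat.add_sub_cancel]
      ring
    omega
  · obtain ⟨j, rfl⟩ : ∃ j, k = j + 1 := ⟨k - 1, by omega⟩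
    simp only [Nat.add_sub_cancel] at hR2
    have h3 : R * n * (2 * (j + 1) ^ 2 + 2 * (j + 1)) ≤ 2 * (j + 2) * (j * (s * n)) := by
      calc R * n * (2 * (j + 1) ^ 2 + 2 * (j + 1)) = 2 * (j + 2) * n * ((j + 1) * R) := by ring
        _ ≤ 2 * (j + 2) * n * (j * s) := Nat.mul_le_mul le_rfl hR2
        _ = 2 * (j + 2) * (j * (s * n)) := by ring
    have e2 : 2 * (j + 1) ^ 2 * (s * n) = 2 * (s * n) + 2 * (j + 2) * (j * (s * n)) := by ring
    omega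

end arith

variable {L : Type} [Lattice L] [BoundedOrder L] [Finite L] [IsUpperModularLattice L]

section rows

variable [DecidableEq L] [DecidableRel (α := L) (· ≤ ·)]

/-- The number of long rows through a user. -/
theorem card_long {U C : Finset L} {u z : L} {k s N m : ℕ} (hU : ∀ x ∈ U, IsAtom x ∧ ¬ x ≤ u)
    (hu : rk u = 2) (hC : ∀ c ∈ C, IsAtom c ∧ c ≤ u) (hz : z ∈ U) (hk : 2 ≤ k) (hs : 1 ≤ s)
    (h1 : k ^ 2 * N ≤ (k - 1) ^ 2 * s ^ 2) (hm : (U.filter (· ≤ z ⊔ u)).card ≤ m)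
    (h2 : m + s ≤ N) :
    k * (C.filter (fun c => (k - 1) * s < k * (U.filter (· ≤ z ⊔ c)).card)).card ≤
      (k - 1) * s := by
  set B := C.filter (fun c => (k - 1) * s < k * (U.filter (· ≤ z ⊔ c)).card) with hB
  have hBC : ∀ c ∈ B, c ∈ C ∧ (k - 1) * s < k * (U.filter (· ≤ z ⊔ c)).card := fun c hc =>
    Finset.mem_filter.mp hc
  have hza := hU z hz
  have hdis : (B : Set L).PairwiseDisjoint (fun c => (U.filter (· ≤ z ⊔ c)).erase z) := by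
    intro c hc c' hc' hne
    rw [Function.onFun, Finset.disjoint_left]
    intro x hx hx'
    rw [Finset.mem_erase, Finset.mem_filter] at hx hx'
    obtain ⟨hxz, hxU, hx1⟩ := hx
    obtain ⟨-, -, hx3⟩ := hx'
    have hc1 := hC c (hBC c hc).1
    have hc2 := hC c' (hBC c' hc').1
    have e1 := line_eq (hU x hxU).1 hza.1 hxz hx1 le_sup_left (rk_zc hza.1 hc1.1 hza.2 hc1.2)
    have e2 := line_eq (hU x hxU).1 hza.1 hxz hx3 le_sup_left (rk_zc hza.1 hc2.1 hza.2 hc2.2)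
    have k3 : c' ≤ z ⊔ c := by
      rw [← e1, e2]
      exact le_sup_right
    exact hne (row_u hu hza.1 hc1.1 hc2.1 hza.2 hc1.2 hc2.2 k3).symm
  have h6 : ∑ c ∈ B, ((U.filter (· ≤ z ⊔ c)).erase z).card ≤ m := by
    rw [← Finset.card_biUnion hdis]
    refine le_trans (Finset.card_le_card fun x hx => ?_) hm
    obtain ⟨c, hc, h⟩ := Finset.mem_biUnion.mp hx
    rw [Finset.mem_erase, Finset.mem_filter] at h
    rw [Finset.mem_filter]
    exact ⟨h.2.1, h.2.2.trans (sup_le_sup_left (hC c (hBC c hc).1).2 z)⟩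
  have h7 : ∀ c ∈ B, (k - 1) * s ≤ k * ((U.filter (· ≤ z ⊔ c)).erase z).card + (k - 1) := by
    intro c hc
    have h8 := (hBC c hc).2
    have hmem : z ∈ U.filter (· ≤ z ⊔ c) := Finset.mem_filter.mpr ⟨hz, le_sup_left⟩
    have hpos : 0 < (U.filter (· ≤ z ⊔ c)).card := Finset.card_pos.mpr ⟨z, hmem⟩
    rw [Finset.card_erase_of_mem hmem]
    obtain ⟨p, hp⟩ : ∃ p, (U.filter (· ≤ z ⊔ c)).card = p + 1 :=
      ⟨(U.filter (· ≤ z ⊔ c)).card - 1, by omega⟩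
    rw [hp] at h8 ⊢
    rw [Nat.add_sub_cancel]
    rw [mul_add, mul_one] at h8
    omega
  refine arith_long (N := N) (m := m) hk hs h1 h2 ?_
  have h9 : B.card * ((k - 1) * s) ≤
      ∑ c ∈ B, (k * ((U.filter (· ≤ z ⊔ c)).erase z).card + (k - 1)) := by
    rw [← smul_eq_mul, ← Finset.sum_const]
    exact Finset.sum_le_sum h7
  rw [Finset.sum_add_distrib, ← Finset.mul_sum, Finset.sum_const, smul_eq_mul] at h9
  have h10 := Nat.mul_le_mul (le_refl k) h6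
  omega

end rows

end Pool.Agent.Helper4.LL
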