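import Pool.Agent.Helper4.LL.Geo

/-!
# A long line in rank four: the second line of a triple

`Lam A u z H` is the set of the lines through `z` in the plane `H` which are not in the plane of
`z` and `u`.  The second line of the triple `(z, c, y)` is another line of this set, if there is
one, and the row `z ⊔ c` otherwise.
-/

set_option autoImplicit false
set_option linter.unusedSectionVars false

namespace Pool.Agent.Helper4.LL

open Pool.Agent.Helper28.BPack Pool.Agent.Helper61.Motz Pool.Agent.Helper63.HM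
open Pool.Agent.Helper83.BQ

/-- An injective self map without fixed points. -/
theorem exists_shift {α : Type} [DecidableEq α] (S : Finset α) (h : 2 ≤ S.card) :
    ∃ f : α → α, (∀ g ∈ S, f g ∈ S ∧ f g ≠ g) ∧ ∀ g ∈ S, ∀ g' ∈ S, f g = f g' → g = g' := by
  obtain ⟨k, hk⟩ : ∃ k, S.card = k + 2 := ⟨S.card - 2, by omega⟩
  let e := S.equivFinOfCardEq hk
  refine ⟨fun g => if hg : g ∈ S then (e.symm (e ⟨g, hg⟩ + 1)).1 else g, ?_, ?_⟩
  · intro g hg
    simp only [dif_pos hg]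
    refine ⟨(e.symm (e ⟨g, hg⟩ + 1)).2, ?_⟩
    intro hcon
    have h1 : e.symm (e ⟨g, hg⟩ + 1) = ⟨g, hg⟩ := Subtype.ext hcon
    have h2 : e ⟨g, hg⟩ + 1 = e ⟨g, hg⟩ := by
      rw [Equiv.symm_apply_eq] at h1
      exact h1
    exact one_ne_zero (add_eq_left.mp h2)
  · intro g hg g' hg' hgg
    simp only [dif_pos hg, dif_pos hg'] at hgg
    have h1 : e.symm (e ⟨g, hg⟩ + 1) = e.symm (e ⟨g', hg'⟩ + 1) := Subtype.ext hgg
    have h2 : e ⟨g, hg⟩ = e ⟨g', hg'⟩ := add_right_cancel (e.symm.injective h1)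
    exact congrArg Subtype.val (e.injective h2)

variable {L : Type} [Lattice L] [BoundedOrder L] [Finite L] [IsUpperModularLattice L]
variable [DecidableEq L] [DecidableRel (α := L) (· ≤ ·)]

/-- The lines through `z` in `H` which are not in the plane of `z` and `u`. -/
def Lam (A : Finset L) (u z H : L) : Finset L :=
  (A.filter (fun d => d ≤ H ∧ ¬ d ≤ z ⊔ u)).image (fun d => z ⊔ d)

/-- A fixed point free permutation of `Lam A u z H`. -/
noncomputable def sh (A : Finset L) (u z H : L) : L → L :=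
  if h : 2 ≤ (Lam A u z H).card then Classical.choose (exists_shift _ h) else id

/-- The second line of the triple. -/
noncomputable def sec (A : Finset L) (u z c y : L) : L :=
  if 2 ≤ (Lam A u z (z ⊔ c ⊔ y)).card then sh A u z (z ⊔ c ⊔ y) (z ⊔ y) else z ⊔ c

theorem mem_Lam {A : Finset L} {u z H q : L} :
    q ∈ Lam A u z H ↔ ∃ d ∈ A, d ≤ H ∧ ¬ d ≤ z ⊔ u ∧ z ⊔ d = q := by
  rw [Lam, Finset.mem_image]
  constructor
  · rintro ⟨d, hd, h⟩
    obtain ⟨h1, h2, h3⟩ := Finset.mem_filter.mp hd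
    exact ⟨d, h1, h2, h3, h⟩
  · rintro ⟨d, h1, h2, h3, h⟩
    exact ⟨d, Finset.mem_filter.mpr ⟨h1, h2, h3⟩, h⟩

theorem sh_spec {A : Finset L} {u z H : L} (h : 2 ≤ (Lam A u z H).card) :
    (∀ g ∈ Lam A u z H, sh A u z H g ∈ Lam A u z H ∧ sh A u z H g ≠ g) ∧
      ∀ g ∈ Lam A u z H, ∀ g' ∈ Lam A u z H, sh A u z H g = sh A u z H g' → g = g' := by
  rw [sh, dif_pos h]
  exact Classical.choose_spec (exists_shift _ h)

theorem zy_mem_Lam {A : Finset L} {u z c y : L} (hy : y ∈ A) (hyP : ¬ y ≤ z ⊔ u) :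
    z ⊔ y ∈ Lam A u z (z ⊔ c ⊔ y) := mem_Lam.mpr ⟨y, hy, le_sup_right, hyP, rfl⟩

/-- The two kinds of second lines. -/
theorem sec_spec {A : Finset L} {u z c y : L} (hA : ∀ a ∈ A, IsAtom a) (hu : rk u = 2)
    (hz : IsAtom z) (hc : IsAtom c) (hcu : c ≤ u) (hzu : ¬ z ≤ u) (hy : y ∈ A)
    (hyP : ¬ y ≤ z ⊔ u) :
    (∃ d ∈ A, d ≤ z ⊔ c ⊔ y ∧ ¬ d ≤ z ⊔ u ∧ z ⊔ d = sec A u z c y ∧ sec A u z c y ≠ z ⊔ y) ∨
      (sec A u z c y = z ⊔ c ∧ (A.filter (· ≤ z ⊔ c ⊔ y)).card ≤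
        (A.filter (· ≤ z ⊔ c)).card + (A.filter (· ≤ z ⊔ y)).card) := by
  by_cases h : 2 ≤ (Lam A u z (z ⊔ c ⊔ y)).card
  · left
    obtain ⟨h1, -⟩ := sh_spec h
    obtain ⟨h2, h3⟩ := h1 _ (zy_mem_Lam (c := c) hy hyP)
    obtain ⟨d, hd, hd1, hd2, hd3⟩ := mem_Lam.mp h2
    refine ⟨d, hd, hd1, hd2, ?_, ?_⟩
    · rw [sec, if_pos h]
      exact hd3
    · rw [sec, if_pos h]
      exact h3
  · right
    refine ⟨by rw [sec, if_neg h], ?_⟩
    refine le_trans (Finset.card_le_card fun d hd => ?_) (Finset.card_union_le _ _)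
    obtain ⟨hdA, hdH⟩ := Finset.mem_filter.mp hd
    rw [Finset.mem_union, Finset.mem_filter, Finset.mem_filter]
    by_cases hdP : d ≤ z ⊔ u
    · exact Or.inl ⟨hdA, plane_P hu hz hc (hA y hy) hzu hcu hyP (hA d hdA) hdP hdH⟩
    · right
      refine ⟨hdA, ?_⟩
      have h1 : z ⊔ d ∈ Lam A u z (z ⊔ c ⊔ y) := mem_Lam.mpr ⟨d, hdA, hdH, hdP, rfl⟩
      have h2 : z ⊔ d = z ⊔ y := Finset.card_le_one.mp (by omega) _ h1 _
        (zy_mem_Lam (c := c) hy hyP)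
      exact h2 ▸ le_sup_right

/-- The second line determines the first line. -/
theorem sec_inj {A : Finset L} {u z c y y' : L} (hy : y ∈ A) (hyP : ¬ y ≤ z ⊔ u)
    (hy' : y' ∈ A) (hyP' : ¬ y' ≤ z ⊔ u) (hH : z ⊔ c ⊔ y = z ⊔ c ⊔ y') (hq : ¬ c ≤ sec A u z c y)
    (h : sec A u z c y = sec A u z c y') : z ⊔ y = z ⊔ y' := by
  have h2 : 2 ≤ (Lam A u z (z ⊔ c ⊔ y)).card := by
    by_contra hcon
    rw [sec, if_neg hcon] at hq
    exact hq le_sup_right
  have h2' : 2 ≤ (Lam A u z (z ⊔ c ⊔ y')).card := hH ▸ h2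
  rw [sec, sec, if_pos h2, if_pos h2', ← hH] at h
  exact (sh_spec h2).2 _ (zy_mem_Lam (c := c) hy hyP) _ (hH ▸ zy_mem_Lam (c := c) hy' hyP') h

end Pool.Agent.Helper4.LL
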